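import Pool.Agent.H28.PL.DefsJ

/-!
Project PL (`MP_cd3997_nt`): rows EUC, ADV, JRU (helper67).
-/

set_option autoImplicit false

open Finset

namespace Pool.Agent.H67.PL

open Pool.Agent.H28.PL

/-! ### Euclid's algorithm -/

theorem odd_of_mod4 {n : ℕ} (h : n % 4 = 1) : Odd n := by
  rw [Nat.odd_iff]
  omega

/-- reduction of the numerator -/
theorem jac_red {x y N : ℕ} (hN : N % 4 = 1) (h : (N : ℤ) ∣ x - y ∨ (N : ℤ) ∣ x + y) :
    jacobiSym x N = jacobiSym y N := by
  rcases h with h | h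
  · refine jacobiSym.mod_left' ?_
    exact ((Int.modEq_iff_dvd).2 h).symm
  · have h1 : jacobiSym x N = jacobiSym (-(y : ℤ)) N := by
      refine jacobiSym.mod_left' ?_
      have h2 : (N : ℤ) ∣ (x : ℤ) - (-(y : ℤ)) := by
        rw [sub_neg_eq_add]
        exact h
      exact ((Int.modEq_iff_dvd).2 h2).symm
    rw [h1, jacobiSym.neg _ (odd_of_mod4 hN), ZMod.χ₄_nat_one_mod_four hN, one_mul]

theorem euc_step {B : ℕ → ℕ} (hB : Euc B) (a b : ℕ) (ha : Odd a) (hb : Odd b) (hab : b < a)
    (hc : Nat.Coprime a b)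
    (ih : ∀ x y : ℕ, Odd x → Odd y → Nat.Coprime x y → x + y < a + b →
      jacobiSym (B x) (B y) = 1) : jacobiSym (B a) (B b) = 1 := by
  obtain ⟨_, h4, h5, h6⟩ := hB
  obtain ⟨a', ha'⟩ := ha
  obtain ⟨b', hb'⟩ := hb
  by_cases h2 : 2 * b < a
  · have hk : Odd (a - 2 * b) := ⟨a' - b' - b' - 1, by omega⟩
    have e1 : a - 2 * b + 2 * b = a := by omega
    have h7 := h5 b (a - 2 * b) ⟨b', hb'⟩ hk
    rw [e1] at h7
    rw [jac_red (h4 b ⟨b', hb'⟩) h7]
    refine ih _ _ hk ⟨b', hb'⟩ ?_ (by omega)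
    have h8 : Nat.Coprime (a - 2 * b + 2 * b) b := by rw [e1]; exact hc
    exact (Nat.coprime_add_mul_right_left (a - 2 * b) b 2).1 h8
  · have hk : Odd (2 * b - a) := ⟨b' + b' - a', by omega⟩
    have e1 : 2 * b - (2 * b - a) = a := by omega
    have h7 := h6 b (2 * b - a) ⟨b', hb'⟩ hk (by omega)
    rw [e1] at h7
    rw [jac_red (h4 b ⟨b', hb'⟩) h7]
    refine ih _ _ hk ⟨b', hb'⟩ ?_ (by omega)
    have h8 : Nat.Coprime (2 * b - a) b ↔ Nat.Coprime a b := by
      constructor
      · intro h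
        rw [Nat.coprime_comm] at h ⊢
        have h9 : b.gcd a ∣ b.gcd (2 * b - a) :=
          Nat.dvd_gcd (Nat.gcd_dvd_left b a) (Nat.dvd_sub ((Nat.gcd_dvd_left b a).mul_left 2)
            (Nat.gcd_dvd_right b a))
        rw [Nat.Coprime] at h ⊢
        rw [h] at h9
        exact Nat.dvd_one.1 h9
      · intro h
        rw [Nat.coprime_comm] at h ⊢
        have h9 : b.gcd (2 * b - a) ∣ b.gcd a := by
          refine Nat.dvd_gcd (Nat.gcd_dvd_left _ _) ?_
          have h10 : b.gcd (2 * b - a) ∣ 2 * b - (2 * b - a) :=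
            Nat.dvd_sub ((Nat.gcd_dvd_left _ _).mul_left 2) (Nat.gcd_dvd_right _ _)
          rwa [e1] at h10
        rw [Nat.Coprime] at h ⊢
        rw [h] at h9
        exact Nat.dvd_one.1 h9
    exact h8.2 hc

theorem pf_EUC : T_EUC := by
  intro B hB
  have key : ∀ n a b : ℕ, a + b = n → Odd a → Odd b → Nat.Coprime a b →
      jacobiSym (B a) (B b) = 1 := by
    intro n
    induction n using Nat.strong_induction_on with
    | _ n IH =>
      intro a b hn ha hb hc
      have ih : ∀ x y : ℕ, Odd x → Odd y → Nat.Coprime x y → x + y < a + b →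
          jacobiSym (B x) (B y) = 1 := fun x y hx hy hxy hlt =>
        IH (x + y) (by omega) x y rfl hx hy hxy
      rcases lt_trichotomy a b with h | h | h
      · have h1 : jacobiSym (B b) (B a) = 1 :=
          euc_step hB b a hb ha h hc.symm (fun x y hx hy hxy hlt => ih x y hx hy hxy (by omega))
        rw [← h1]
        exact jacobiSym.quadratic_reciprocity_one_mod_four (hB.2.1 a ha)
          (odd_of_mod4 (hB.2.1 b hb))
      · subst h
        have h1 : a = 1 := (Nat.coprime_self a).1 hc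
        subst h1
        rw [hB.1]
        exact jacobiSym.one_right _
      · exact euc_step hB a b ha hb h hc ih
  intro a b ha hb hc
  exact key _ a b rfl ha hb hc

/-! ### Identities -/

theorem al_sq : al ^ 2 = 2 * al + 1 := by
  unfold al
  have h : Real.sqrt 2 ^ 2 = 2 := Real.sq_sqrt (by norm_num)
  nlinarith

theorem be_sq : be ^ 2 = 2 * be + 1 := by
  unfold be
  have h : Real.sqrt 2 ^ 2 = 2 := Real.sq_sqrt (by norm_num)
  nlinarith

theorem al_be : al * be = -1 := by
  unfold al be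
  have h : Real.sqrt 2 ^ 2 = 2 := Real.sq_sqrt (by norm_num)
  nlinarith

theorem pe_bin : ∀ n : ℕ, (al - be) * (pe n : ℝ) = al ^ n - be ^ n
  | 0 => by simp [pe]
  | 1 => by simp [pe]
  | n + 2 => by
    have h1 := pe_bin (n + 1)
    have h2 := pe_bin n
    rw [pe]
    push_cast
    have h3 : (al - be) * (2 * (pe (n + 1) : ℝ) + pe n) =
        2 * ((al - be) * pe (n + 1)) + (al - be) * pe n := by ring
    rw [h3, h1, h2, pow_add al n 2, pow_add be n 2, al_sq, be_sq]
    ring

theorem ve_bin : ∀ n : ℕ, (ve n : ℝ) = al ^ n + be ^ n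
  | 0 => by norm_num [ve]
  | 1 => by
    simp only [ve, al, be]
    norm_num
  | n + 2 => by
    have h1 := ve_bin (n + 1)
    have h2 := ve_bin n
    rw [ve]
    push_cast
    rw [h1, h2, pow_add al n 2, pow_add be n 2, al_sq, be_sq]
    ring

theorem ab_ne : al - be ≠ 0 := by
  unfold al be
  have h : 0 < Real.sqrt 2 := Real.sqrt_pos.2 (by norm_num)
  intro h2
  linarith

/-- `ve (2 b + c) = ve (b + c) ve b - (-1)^b ve c` -/
theorem ve_id (b c : ℕ) : (ve (2 * b + c) : ℤ) = ve (b + c) * ve b - (-1) ^ b * ve c := by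
  have h : (ve (2 * b + c) : ℝ) = ve (b + c) * ve b - (-1) ^ b * ve c := by
    rw [ve_bin, ve_bin, ve_bin, ve_bin, ← al_be]
    ring
  exact_mod_cast h

/-- `pe (2 b + c) - (-1)^b pe c = pe b ve (b + c)` -/
theorem pe_id1 (b c : ℕ) : (pe (2 * b + c) : ℤ) - (-1) ^ b * pe c = pe b * ve (b + c) := by
  have h : (pe (2 * b + c) : ℝ) - (-1) ^ b * pe c = pe b * ve (b + c) := by
    apply mul_left_cancel₀ ab_ne
    have h1 := pe_bin (2 * b + c)
    have h2 := pe_bin c
    have h3 := pe_bin b
    calc (al - be) * ((pe (2 * b + c) : ℝ) - (-1) ^ b * pe c)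
        = (al - be) * pe (2 * b + c) - (-1) ^ b * ((al - be) * pe c) := by ring
      _ = ((al - be) * pe b) * ve (b + c) := by
        rw [h1, h2, h3, ve_bin, ← al_be]
        ring
      _ = _ := by ring
  exact_mod_cast h

/-- `pe (2 b + c) + (-1)^b pe c = pe (b + c) ve b` -/
theorem pe_id2 (b c : ℕ) : (pe (2 * b + c) : ℤ) + (-1) ^ b * pe c = pe (b + c) * ve b := by
  have h : (pe (2 * b + c) : ℝ) + (-1) ^ b * pe c = pe (b + c) * ve b := by
    apply mul_left_cancel₀ ab_ne
    have h1 := pe_bin (2 * b + c)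
    have h2 := pe_bin c
    have h3 := pe_bin (b + c)
    calc (al - be) * ((pe (2 * b + c) : ℝ) + (-1) ^ b * pe c)
        = (al - be) * pe (2 * b + c) + (-1) ^ b * ((al - be) * pe c) := by ring
      _ = ((al - be) * pe (b + c)) * ve b := by
        rw [h1, h2, h3, ve_bin, ← al_be]
        ring
      _ = _ := by ring
  exact_mod_cast h

/-- `pe g ∣ pe (g k)` -/
theorem pe_dvd (g k : ℕ) : pe g ∣ pe (g * k) := by
  induction k using Nat.strong_induction_on with
  | _ k ih =>
    match k with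
    | 0 => rw [mul_zero]; exact dvd_zero _
    | 1 => rw [mul_one]
    | k + 2 =>
      have h1 := pe_id1 g (g * k)
      have h2 : 2 * g + g * k = g * (k + 2) := by ring
      rw [h2] at h1
      have h3 : (pe g : ℤ) ∣ pe (g * (k + 2)) := by
        have h4 : (pe (g * (k + 2)) : ℤ) = pe g * ve (g + g * k) + (-1) ^ g * pe (g * k) := by
          linarith
        rw [h4]
        refine dvd_add (dvd_mul_right _ _) (Dvd.dvd.mul_left ?_ _)
        exact_mod_cast ih k (by omega)
      exact_mod_cast h3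

theorem ve_dvd (N : ℕ) (j : ℕ) : ve N ∣ ve (N * (2 * j + 1)) := by
  induction j with
  | zero => simp
  | succ j ih =>
    have h1 := ve_id N (N * (2 * j + 1))
    have h2 : 2 * N + N * (2 * j + 1) = N * (2 * (j + 1) + 1) := by ring
    rw [h2] at h1
    have h3 : (ve N : ℤ) ∣ ve (N * (2 * (j + 1) + 1)) := by
      rw [h1]
      refine dvd_sub (dvd_mul_left _ _) (Dvd.dvd.mul_left ?_ _)
      exact_mod_cast ih
    exact_mod_cast h3

theorem pf_ADV : T_ADV := by
  intro c g k _ hk
  unfold AA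
  split_ifs with hc
  · exact pe_dvd g k
  · obtain ⟨j, rfl⟩ := hk
    have h := ve_dvd (2 ^ (c - 1) * g) j
    rwa [mul_assoc] at h

theorem pe_odd_mod4 (j : ℕ) : pe (2 * j + 1) % 4 = 1 ∧ pe (2 * j + 2) % 2 = 0 := by
  induction j with
  | zero => simp [pe]
  | succ j ih =>
    have e1 : 2 * (j + 1) + 1 = (2 * j + 1) + 2 := by ring
    have e2 : 2 * (j + 1) + 2 = (2 * j + 2) + 2 := by ring
    have h1 : pe ((2 * j + 1) + 2) = 2 * pe (2 * j + 2) + pe (2 * j + 1) := by rw [pe]
    have h2 : pe ((2 * j + 2) + 2) = 2 * pe (2 * j + 3) + pe (2 * j + 2) := by rw [pe]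
    rw [e1, e2, h1, h2]
    omega

theorem pe_pos' : ∀ n : ℕ, 0 < n → 0 < pe n
  | 0, h => absurd h (lt_irrefl 0)
  | 1, _ => one_pos
  | n + 2, _ => by
    rw [pe]
    have := pe_pos' (n + 1) (Nat.succ_pos n)
    omega

theorem pf_JRU (_ : T_ADV) : T_JRU := by
  intro g hg
  have hg0 : 0 < g := hg.pos
  have hpg : 0 < pe g := pe_pos' g hg0
  have hAA : ∀ n, AA 0 n = pe n := fun n => by unfold AA; rw [if_pos rfl]
  set B : ℕ → ℕ := fun k => AA 0 (g * k) / AA 0 g with hB
  have hBk : ∀ k, pe g * B k = pe (g * k) := by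
    intro k
    show pe g * (AA 0 (g * k) / AA 0 g) = _
    rw [hAA, hAA]
    exact Nat.mul_div_cancel' (pe_dvd g k)
  have hmod : ∀ n, Odd n → pe n % 4 = 1 := by
    rintro n ⟨j, rfl⟩
    exact (pe_odd_mod4 j).1
  have hcancel : ∀ x y : ℤ, (pe g : ℤ) * x ∣ (pe g : ℤ) * y → x ∣ y := by
    intro x y h
    exact (mul_dvd_mul_iff_left (by positivity)).1 h
  refine ⟨?_, ?_, ?_, ?_⟩
  · have h := hBk 1
    rw [mul_one] at h
    exact Nat.eq_of_mul_eq_mul_left hpg (by rw [h, mul_one])
  · intro k hk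
    have h1 := hmod (g * k) (hg.mul hk)
    have h2 := hmod g hg
    rw [← hBk, Nat.mul_mod, h2, one_mul, Nat.mod_mod] at h1
    exact h1
  · intro b k hb hk
    right
    apply hcancel
    have h1 := pe_id1 (g * b) (g * k)
    rw [(hg.mul hb).neg_one_pow] at h1
    have e1 : 2 * (g * b) + g * k = g * (k + 2 * b) := by ring
    rw [e1, ← hBk, ← hBk, ← hBk] at h1
    push_cast at h1
    refine ⟨ve (g * b + g * k), ?_⟩
    linear_combination h1
  · intro b k hb hk hkb
    right
    apply hcancel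
    rcases le_total b k with h | h
    · obtain ⟨t, ht⟩ : ∃ t, k = b + t := ⟨k - b, by omega⟩
      have hte : Even t := by
        obtain ⟨x, hx⟩ := hb
        obtain ⟨y, hy⟩ := hk
        exact ⟨y - x, by omega⟩
      -- `pe (2 t' + c) + pe c = pe (t' + c) ve t'` with `t' = g t`, `c = g (b - t)`
      have h1 := pe_id2 (g * t) (g * (b - t))
      rw [(hte.mul_left g).neg_one_pow, one_mul] at h1
      have e1 : 2 * (g * t) + g * (b - t) = g * k := by
        have : 2 * t + (b - t) = k := by omega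
        rw [← this]
        ring
      have e2 : g * t + g * (b - t) = g * b := by
        have : t + (b - t) = b := by omega
        rw [← Nat.mul_add, this]
      have e3 : 2 * b - k = b - t := by omega
      rw [e1, e2, ← hBk, ← hBk, ← hBk] at h1
      push_cast at h1
      rw [e3]
      refine ⟨ve (g * t), ?_⟩
      linear_combination h1
    · obtain ⟨t, ht⟩ : ∃ t, b = k + t := ⟨b - k, by omega⟩
      have hte : Even t := by
        obtain ⟨x, hx⟩ := hb
        obtain ⟨y, hy⟩ := hk
        exact ⟨x - y, by omega⟩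
      have h1 := pe_id2 (g * t) (g * k)
      rw [(hte.mul_left g).neg_one_pow, one_mul] at h1
      have e1 : 2 * (g * t) + g * k = g * (2 * b - k) := by
        have : 2 * b - k = 2 * t + k := by omega
        rw [this]
        ring
      have e2 : g * t + g * k = g * b := by
        rw [ht]
        ring
      rw [e1, e2, ← hBk, ← hBk, ← hBk] at h1
      push_cast at h1
      refine ⟨ve (g * t), ?_⟩
      linear_combination h1

end Pool.Agent.H67.PL
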