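import Pool.Agent.H28.PL.Defs

/-!
Project PL (`MP_cd3997_nt`): rows MOB, MOQ and TFO (helper67).
-/

set_option autoImplicit false

open Finset ArithmeticFunction

namespace Pool.Agent.H67.PL

open Pool.Agent.H28.PL

theorem pe_pos : ∀ n : ℕ, 0 < n → 0 < pe n
  | 0, h => absurd h (lt_irrefl 0)
  | 1, _ => one_pos
  | n + 2, _ => by
    rw [pe]
    have := pe_pos (n + 1) (Nat.succ_pos n)
    omega

theorem pp_ne {L : ℕ → ℕ} (hL : PP L) (r : ℕ) (hr : 0 < r) : (L r : ℝ) ≠ 0 := by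
  intro h
  have h0 : L r = 0 := by exact_mod_cast h
  have h1 := hL r hr
  rw [Finset.prod_eq_zero (i := r) (Nat.mem_divisors_self r hr.ne') h0] at h1
  exact absurd h1.symm (pe_pos r hr).ne'

/-- Moebius inversion -/
theorem inv_L {L : ℕ → ℕ} (hL : PP L) (r : ℕ) (hr : 0 < r) :
    (L r : ℝ) = ∏ a ∈ r.divisors, (pe (r / a) : ℝ) ^ (moebius a : ℤ) := by
  have h1 := (prod_eq_iff_prod_pow_moebius_eq_of_nonzero (R := ℝ)
    (f := fun n => (L n : ℝ)) (g := fun n => (pe n : ℝ)) (fun n hn => pp_ne hL n hn)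
    (fun n hn => by
      have := pe_pos n hn
      positivity)).1 (fun n hn => by
        have := hL n hn
        rw [← this]
        push_cast
        rfl) r hr
  rw [← h1, Nat.prod_divisorsAntidiagonal (fun a b => (pe b : ℝ) ^ (moebius a : ℤ))]

theorem sqf_dvd {a m : ℕ} (ha : Squarefree a) (_ : m ≠ 0)
    (h : a.primeFactors ⊆ m.primeFactors) : a ∣ m := by
  have h1 : a = ∏ p ∈ a.primeFactors, p := (Nat.prod_primeFactors_of_squarefree ha).symm
  rw [h1]
  refine (Finset.prod_dvd_prod_of_subset _ _ _ h).trans ?_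
  exact Nat.prod_primeFactors_dvd m

theorem TT_eq (m s : ℕ) (hm : 0 < m) :
    TT m s = ∏ a ∈ m.divisors, (pe (s * (m / a)) : ℝ) ^ (moebius a : ℤ) := by
  unfold TT
  rw [← Nat.prod_div_divisors m (fun a => (pe (s * (m / a)) : ℝ) ^ (moebius a : ℤ))]
  refine Finset.prod_congr rfl fun d hd => ?_
  rw [Nat.div_div_self (Nat.dvd_of_mem_divisors hd) hm.ne']

theorem pf_MOB : T_MOB := by
  intro L hL m s hm hs hpf
  have hm0 : 0 < m := Nat.pos_of_ne_zero hm.ne_zero
  have hr : 0 < m * s := Nat.mul_pos hm0 hs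
  rw [inv_L hL (m * s) hr, TT_eq m s hm0]
  symm
  have hsub : m.divisors ⊆ (m * s).divisors :=
    Nat.divisors_subset_of_dvd hr.ne' (dvd_mul_right m s)
  have h1 : ∀ a ∈ m.divisors, (pe (s * (m / a)) : ℝ) ^ (moebius a : ℤ) =
      (pe (m * s / a) : ℝ) ^ (moebius a : ℤ) := by
    intro a ha
    have h2 : m * s / a = s * (m / a) := by
      rw [mul_comm m s, Nat.mul_div_assoc s (Nat.dvd_of_mem_divisors ha)]
    rw [h2]
  rw [Finset.prod_congr rfl h1]
  refine Finset.prod_subset hsub ?_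
  intro a ha hna
  have h3 : moebius a = 0 := by
    apply moebius_eq_zero_of_not_squarefree
    intro hsq
    apply hna
    rw [Nat.mem_divisors]
    refine ⟨sqf_dvd hsq hm0.ne' ?_, hm0.ne'⟩
    rw [← hpf]
    exact Nat.primeFactors_mono (Nat.dvd_of_mem_divisors ha) hr.ne'
  rw [h3, zpow_zero]

theorem TT_ne (m s : ℕ) (hs : 0 < s) : TT m s ≠ 0 := by
  unfold TT
  refine Finset.prod_ne_zero_iff.2 fun d hd => ?_
  refine zpow_ne_zero _ ?_
  have := pe_pos (s * d) (Nat.mul_pos hs (Nat.pos_of_mem_divisors hd))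
  positivity

theorem TT_mul (m s q : ℕ) (hm : Squarefree m) (hs : 0 < s) (hq : q.Prime) (hqm : ¬ q ∣ m) :
    TT (m * q) s * TT m s = TT m (s * q) := by
  have hm0 : 0 < m := Nat.pos_of_ne_zero hm.ne_zero
  have hcop : Nat.Coprime m q := ((Nat.Prime.coprime_iff_not_dvd hq).2 hqm).symm
  have hdiv : (m * q).divisors = m.divisors ∪ m.divisors.image fun d => d * q := by
    ext d
    simp only [Finset.mem_union, Finset.mem_image, Nat.mem_divisors]
    constructor
    · rintro ⟨hd, _⟩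
      by_cases hqd : q ∣ d
      · obtain ⟨e, rfl⟩ := hqd
        refine Or.inr ⟨e, ⟨?_, hm0.ne'⟩, mul_comm e q⟩
        rw [mul_comm m q] at hd
        exact Nat.dvd_of_mul_dvd_mul_left hq.pos hd
      · refine Or.inl ⟨?_, hm0.ne'⟩
        exact Nat.Coprime.dvd_of_dvd_mul_right ((Nat.Prime.coprime_iff_not_dvd hq).2 hqd).symm hd
    · rintro (⟨hd, _⟩ | ⟨e, ⟨he, _⟩, rfl⟩)
      · exact ⟨hd.mul_right q, (Nat.mul_pos hm0 hq.pos).ne'⟩
      · exact ⟨Nat.mul_dvd_mul_right he q, (Nat.mul_pos hm0 hq.pos).ne'⟩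
  have hdisj : Disjoint m.divisors (m.divisors.image fun d => d * q) := by
    rw [Finset.disjoint_left]
    intro d hd hd2
    rw [Finset.mem_image] at hd2
    obtain ⟨e, _, rfl⟩ := hd2
    exact hqm ((dvd_mul_left q e).trans (Nat.dvd_of_mem_divisors hd))
  unfold TT
  rw [hdiv, Finset.prod_union hdisj, Finset.prod_image (fun x _ y _ h =>
    Nat.eq_of_mul_eq_mul_right hq.pos h)]
  have h1 : ∀ d ∈ m.divisors, (pe (s * d) : ℝ) ^ (moebius (m * q / d) : ℤ) =
      ((pe (s * d) : ℝ) ^ (moebius (m / d) : ℤ))⁻¹ := by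
    intro d hd
    have hdm := Nat.dvd_of_mem_divisors hd
    have h2 : m * q / d = (m / d) * q := by
      rw [mul_comm m q, Nat.mul_div_assoc q hdm, mul_comm]
    have h3 : Nat.Coprime (m / d) q := Nat.Coprime.coprime_dvd_left (Nat.div_dvd_of_dvd hdm) hcop
    rw [h2, isMultiplicative_moebius.map_mul_of_coprime h3, moebius_apply_prime hq, mul_neg,
      mul_one, zpow_neg]
  have h4 : ∀ d ∈ m.divisors, (pe (s * (d * q)) : ℝ) ^ (moebius (m * q / (d * q)) : ℤ) =
      (pe (s * q * d) : ℝ) ^ (moebius (m / d) : ℤ) := by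
    intro d _
    rw [Nat.mul_div_mul_right _ _ hq.pos]
    congr 3
    ring
  rw [Finset.prod_congr rfl h1, Finset.prod_congr rfl h4, Finset.prod_inv_distrib]
  have h5 : ∏ d ∈ m.divisors, (pe (s * d) : ℝ) ^ (moebius (m / d) : ℤ) ≠ 0 := TT_ne m s hs
  field_simp

theorem pf_MOQ : T_MOQ := by
  intro L hL m s q hm hs hpf hq hqm
  have hm0 : 0 < m := Nat.pos_of_ne_zero hm.ne_zero
  have hcop : Nat.Coprime m q := ((Nat.Prime.coprime_iff_not_dvd hq).2 hqm).symm
  have hmq : Squarefree (m * q) :=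
    (Nat.squarefree_mul hcop).2 ⟨hm, hq.prime.squarefree⟩
  have h1 : L (m * s * q) = L (m * q * s) := by
    congr 1
    ring
  have h2 := pf_MOB L hL (m * q) s hmq hs (by
    have h3 : m * q * s = (m * s) * q := by ring
    rw [h3, Nat.primeFactors_mul (Nat.mul_pos hm0 hs).ne' hq.ne_zero,
      Nat.primeFactors_mul hm0.ne' hq.ne_zero, hpf])
  rw [h1, h2, pf_MOB L hL m s hm hs hpf]
  exact TT_mul m s q hm hs hq hqm

theorem prod_zpow_sum {ι : Type} (S : Finset ι) (x : ℝ) (hx : x ≠ 0) (f : ι → ℤ) :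
    ∏ i ∈ S, x ^ f i = x ^ ∑ i ∈ S, f i := by
  classical
  induction S using Finset.induction_on with
  | empty => simp
  | insert a S ha ih => rw [Finset.prod_insert ha, Finset.sum_insert ha, zpow_add₀ hx, ih]

theorem sum_mu (m : ℕ) (hm : 1 < m) : ∑ d ∈ m.divisors, (moebius (m / d) : ℤ) = 0 := by
  have h1 := (sum_eq_iff_sum_mul_moebius_eq (R := ℤ) (f := fun n => if n = 1 then 1 else 0)
    (g := fun _ => 1)).1 (fun n hn => by
      rw [Finset.sum_ite_eq' n.divisors 1 (fun _ => (1 : ℤ)), if_pos (Nat.one_mem_divisors.2 hn.ne')])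
    m (by omega)
  simp only [Int.cast_id] at h1
  rw [Nat.sum_divisorsAntidiagonal' (fun a b => (moebius a : ℤ) * 1)] at h1
  rw [if_neg (by omega)] at h1
  rw [← h1]
  exact Finset.sum_congr rfl fun d _ => by simp

theorem sum_dmu (m : ℕ) (hm : 0 < m) :
    ∑ d ∈ m.divisors, (d : ℤ) * (moebius (m / d) : ℤ) = (Nat.totient m : ℤ) := by
  have h1 := (sum_eq_iff_sum_mul_moebius_eq (R := ℤ) (f := fun n => (Nat.totient n : ℤ))
    (g := fun n => (n : ℤ))).1 (fun n _ => by
      have := Nat.sum_totient n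
      exact_mod_cast this) m hm
  simp only [Int.cast_id] at h1
  rw [Nat.sum_divisorsAntidiagonal' (fun a b => (moebius a : ℤ) * (b : ℤ))] at h1
  rw [← h1]
  exact Finset.sum_congr rfl fun d _ => mul_comm _ _

theorem pf_TFO (hB : T_BIN) : T_TFO := by
  intro m s hm hm1 hs
  have hm0 : 0 < m := by omega
  have hal : 0 < al := by
    unfold al
    positivity
  have h8 : (0 : ℝ) < 2 * Real.sqrt 2 := by positivity
  set c : ℝ := 1 / (2 * Real.sqrt 2) with hc
  have hc0 : c ≠ 0 := by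
    rw [hc]
    positivity
  set X : ℝ := al ^ s with hX
  have hX0 : X ≠ 0 := by
    rw [hX]
    positivity
  have h1 : ∀ d ∈ m.divisors, (pe (s * d) : ℝ) ^ (moebius (m / d) : ℤ) =
      c ^ (moebius (m / d) : ℤ) * X ^ ((d : ℤ) * (moebius (m / d) : ℤ)) *
        (1 - ((be / al) ^ s) ^ d) ^ (moebius (m / d) : ℤ) := by
    intro d _
    have h2 : (pe (s * d) : ℝ) = c * X ^ d * (1 - ((be / al) ^ s) ^ d) := by
      have h3 := (hB (s * d)).1
      have h4 : (pe (s * d) : ℝ) = c * (al ^ (s * d) - be ^ (s * d)) := by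
        rw [← h3, hc]
        field_simp
      have h5 : X ^ d * ((be / al) ^ s) ^ d = be ^ (s * d) := by
        rw [hX, ← pow_mul, ← pow_mul, ← mul_pow, mul_div_cancel₀ _ hal.ne']
      have h6 : X ^ d * (1 - ((be / al) ^ s) ^ d) = al ^ (s * d) - be ^ (s * d) := by
        rw [mul_sub, mul_one, h5, hX, ← pow_mul]
      rw [h4, mul_assoc, h6]
    rw [h2, mul_zpow, mul_zpow, zpow_mul, zpow_natCast]
  unfold TT
  rw [Finset.prod_congr rfl h1, Finset.prod_mul_distrib, Finset.prod_mul_distrib,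
    prod_zpow_sum _ c hc0, prod_zpow_sum _ X hX0, sum_mu m hm1, sum_dmu m hm0, zpow_zero, one_mul,
    zpow_natCast]

end Pool.Agent.H67.PL
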